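import Pool.Agent.H86.RG.Targets2

/-! E6KEX: the kernels in the form of `Pool.Agent.H70.RG`. -/

set_option autoImplicit false

namespace Pool.Agent.H86.RG6

open MeasureTheory Metric Set Filter Topology Pool.Agent.H87.SN Pool.Agent.H86.RG
open scoped ContDiff RealInnerProductSpace ENNReal

theorem pf_KEX (hKER : T_KER) : Pool.Agent.H70.RG.T_KEX := by
  intro n
  rcases Nat.eq_zero_or_pos n with hn | hn
  · subst hn
    refine ⟨fun _ => 1, fun _ => 1, contDiff_const, contDiff_const, fun x _ => ?_, fun x _ => ?_,
      fun _ => zero_le_one, ?_, fun x => ?_⟩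
    · rw [Subsingleton.elim x 0, norm_zero]
      exact zero_le_one
    · rw [Subsingleton.elim x 0, norm_zero]
      exact zero_le_one
    · have h1 : (volume : Measure (E 0)) univ = 1 := by
        have h2 := EuclideanSpace.volume_preserving_symm_measurableEquiv_toLp (Fin 0)
        have h3 := h2.measure_preimage (s := univ) nullMeasurableSet_univ
        rw [preimage_univ] at h3
        rw [h3, Measure.volume_pi_eq_dirac (x := fun i => i.elim0)]
        simp
      rw [integral_const, smul_eq_mul, mul_one, measureReal_def, h1]
      simp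
    · unfold Pool.Agent.H70.RG.lp
      simp
  · obtain ⟨φ, ζ, h⟩ := hKER n hn
    refine ⟨φ, ζ, h.sφ, h.sζ, fun x hx => ?_, fun x hx => ?_, h.pos, h.one, h.tel⟩
    · by_contra hc
      rw [not_le] at hc
      exact hx (h.zφ x hc.le)
    · by_contra hc
      rw [not_le] at hc
      exact hx (h.zζ x hc.le)

end Pool.Agent.H86.RG6
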